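import Pool.Agent.helper76.FP.Spec

/-! Row fp:COR (helper94). -/

set_option autoImplicit false

namespace Pool.Agent.FP

open Finset
open Pool.Agent.FR (mean)

open Classical in
theorem COR_pt (a a' F f ε : ℝ) (hε : 0 < ε) (hε1 : ε ≤ 1) (ha : 0 ≤ a ∧ a ≤ 1) (ha' : 0 ≤ a' ∧ a' ≤ 1) (hF : 0 ≤ F ∧ F ≤ 1) :
    ε / 2 * (a * a') - (if F < ε / 2 then (1 : ℝ) else 0) - a * a' * f ≤ a * a' * (F - f) := by
  have h0 : 0 ≤ a * a' := mul_nonneg ha.1 ha'.1
  have h1 : a * a' ≤ 1 := by nlinarith [ha.1, ha.2, ha'.1, ha'.2]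
  split_ifs with h
  · nlinarith [mul_nonneg h0 hF.1, mul_le_of_le_one_right hε.le h1]
  · push Not at h
    nlinarith [mul_nonneg h0 (sub_nonneg.2 h)]

theorem COR_prod {X : ℕ} (A A' : Fin X → ℝ) : mean A * mean A' = mean fun z : Fin X × Fin X => A z.1 * A' z.2 := by
  unfold mean
  rw [Fintype.card_prod, Fintype.sum_prod_type, div_mul_div_comm, Finset.sum_mul_sum]
  push_cast
  rfl

theorem COR : COR_stmt := by
  classical
  intro X A A' F f ε x y hX hε hε1 hA hA' hF h1 h2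
  have hc : (0 : ℝ) < (Fintype.card (Fin X × Fin X) : ℝ) := by
    have : 0 < Fintype.card (Fin X × Fin X) := by
      rw [Fintype.card_prod, Fintype.card_fin]
      positivity
    exact_mod_cast this
  rw [COR_prod]
  have h3 : (mean fun z : Fin X × Fin X => (ε / 2 * (A z.1 * A' z.2) - (if F z < ε / 2 then (1 : ℝ) else 0) - A z.1 * A' z.2 * f z)) ≤
      mean fun z : Fin X × Fin X => A z.1 * A' z.2 * (F z - f z) := by
    unfold mean
    refine div_le_div_of_nonneg_right (Finset.sum_le_sum fun z _ => ?_) hc.le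
    exact COR_pt (A z.1) (A' z.2) (F z) (f z) ε hε hε1 (hA z.1) (hA' z.2) (hF z)
  have h4 : (mean fun z : Fin X × Fin X => (ε / 2 * (A z.1 * A' z.2) - (if F z < ε / 2 then (1 : ℝ) else 0) - A z.1 * A' z.2 * f z)) =
      ε / 2 * (mean fun z : Fin X × Fin X => A z.1 * A' z.2) - (mean fun z => if F z < ε / 2 then (1 : ℝ) else 0) - (mean fun z : Fin X × Fin X => A z.1 * A' z.2 * f z) := by
    unfold mean
    rw [Finset.sum_sub_distrib, Finset.sum_sub_distrib, ← Finset.mul_sum]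
    ring
  linarith

end Pool.Agent.FP
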